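import Mathlib
import Pool.Agent.TH905.VF.Gen

/-!
# Vojta's inequality for the algebraic points of Fermat intersections of every dimension

Let `k` be a number field, `a_0, …, a_{q-1}` linear forms in `n + 1` variables over `k`, any `n + 1`
of them linearly independent, `q ≥ n + 2`, and `m ≥ 1`. The points `(y_0 : … : y_{q-1})` such that
`(y_0 ^ m : … : y_{q-1} ^ m) = (a_0(x) : … : a_{q-1}(x))` for some `x` in `ℙ^n` form a smooth complete
intersection `X_m` of dimension `n` of `q - n - 1` hypersurfaces of degree `m` in `ℙ^(q-1)`, of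
general type for `m (q - n - 1) > q`; for `q = n + 2` it is a diagonal hypersurface
`b_0 y_0 ^ m + … + b_{q-1} y_{q-1} ^ m = 0`. The map `P ↦ x` is finite of degree `m ^ (q-1)`,
and `h_K(P) = (m (q - n - 1) - q) h(P)`, `m h(P) = h(x) + O(1)`.

We consider all points `P` of all `X_m` above the `k`-rational points `x` of `ℙ^n`. They are closed
points of degree at most `m ^ (q-1)` over `k`. Vojta's inequality with the term `ε m h(P)` is
`(θ m - q) h(P) ≤ d_k(P) + c` for `θ = q - n - 1 - ε`. We prove it for all `x` outside a small set, for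
all `m` at once.

Proof: the truncated counting function of the arrangement of hyperplanes over `k` is at most the
logarithmic discriminant of `P` plus the truncated counting function over `k(P)`, which is at most
`q h(P)`; for the points with a small truncated counting function over `k` see
`HyperplaneExceptions` (MP_9ec3f0_nt) of the starting files.
-/

set_option autoImplicit false

namespace Pool.Agent.Results.MP_9b9442_nt.FermatIntersections

open NumberField LinearAlgebra.Projectivization

/-- The value of the linear form with coefficients `a` at `x`. -/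
def lin {k : Type} [Field k] {n : ℕ} (a x : Fin (n + 1) → k) : k := ∑ j, a j * x j

/-- The logarithmic height, relative to `k`, of the point with homogeneous coordinates `y` in the
extension `L` of `k`. -/
noncomputable def height (k : Type) {L : Type} [Field k] [NumberField k] [Field L] [NumberField L]
    [Algebra k L] {q : ℕ} (y : Fin q → L) : ℝ := Height.logHeight y / Module.finrank k L

/-- The logarithmic discriminant `log |D_L| / [L : k] - log |D_k|`. -/
noncomputable def logDisc (k L : Type) [Field k] [NumberField k] [Field L] [NumberField L]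
    [Algebra k L] : ℝ :=
  Real.log |(discr L : ℝ)| / Module.finrank k L - Real.log |(discr k : ℝ)|

/-- The set of all vectors `v` over `k` such that, for some `m ≥ 1`, there are a number field `L`
containing `k` and a point `P = (y_0 : … : y_{q-1})` over `L` with `(y_i ^ m) = t v`, `t ≠ 0`, which
violates `(θ m - q) h(P) ≤ d_k(L) + c`. -/
def Violates {k : Type} [Field k] [NumberField k] {q : ℕ} (θ c : ℝ) (v : Fin q → k) : Prop :=
  ∃ (m : ℕ) (L : Type) (_ : Field L) (_ : NumberField L) (_ : Algebra k L) (y : Fin q → L) (t : L),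
    1 ≤ m ∧ t ≠ 0 ∧ (∀ i, y i ^ m = t * algebraMap k L (v i)) ∧
      logDisc k L + c < (θ * m - q) * height k y

/-- The `k`-rational points `x` of `ℙ^n` of height at most `B` off the hyperplanes `a_i = 0` above
which some point of some `X_m` violates `(θ m - q) h(P) ≤ d_k(P) + c`. -/
def exceptional {k : Type} [Field k] [NumberField k] {n q : ℕ} (a : Fin q → Fin (n + 1) → k)
    (θ c B : ℝ) : Set (ℙ k (Fin (n + 1) → k)) :=
  {x | (∀ i, lin (a i) x.rep ≠ 0) ∧ x.mulHeight ≤ B ∧ Violates θ c fun i => lin (a i) x.rep}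

/-- The exponent. -/
noncomputable def exponent (n q : ℕ) (θ : ℝ) : ℝ :=
  min (θ * (1 - ((q - n).choose (n + 1) : ℝ) / (q.choose (n + 1) : ℝ)))
    (((n : ℝ) + 1) * (1 - (n : ℝ) * ((q : ℝ) - θ) / ((q : ℝ) * ((q : ℝ) - 1))))

lemma Violates.prox {k : Type} [Field k] [NumberField k] {q : ℕ} {θ c : ℝ} {v : Fin q → k}
    (hv : ∀ i, v i ≠ 0) (h : Violates θ c v) :
    ∃ (m : ℕ) (L : Type) (_ : Field L) (_ : NumberField L) (_ : Algebra k L) (y : Fin q → L) (t : L),
      m ≠ 0 ∧ t ≠ 0 ∧ (∀ i, y i ^ m = t * algebraMap k L (v i)) ∧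
      Pool.Agent.TH905.VF.ld k L + c <
        (θ * m - q) * Pool.Agent.TH905.VF.ht k y + Pool.Agent.TH905.VF.prox (k := k) ∅ y := by
  obtain ⟨m, L, i1, i2, i3, y, t, hm, ht, hy, hvi⟩ := h
  refine ⟨m, L, i1, i2, i3, y, t, by omega, ht, hy, ?_⟩
  have hyne : ∀ i, y i ≠ 0 := by
    intro i h0
    have h3 := hy i
    rw [h0, zero_pow (by omega)] at h3
    have h4 : algebraMap k L (v i) ≠ 0 := by
      rw [Ne, map_eq_zero]
      exact hv i
    exact mul_ne_zero ht h4 h3.symm
  have h5 := Pool.Agent.TH905.VF.prox_nonneg (k := k) ∅ y hyne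
  have h6 : logDisc k L + c < (θ * m - q) * height k y := hvi
  have h7 : Pool.Agent.TH905.VF.ld k L = logDisc k L := rfl
  have h8 : Pool.Agent.TH905.VF.ht k y = height k y := rfl
  rw [h7, h8]
  linarith

/-- **Vojta's inequality for the algebraic points of Fermat intersections.** Let `k` be a number
field, `θ ≥ 0`, `c` real and `δ > 0`. Let `a_0, …, a_{q-1}` be linear forms in `n + 1 ≥ 2` variables over
`k`, any `n + 1` of them linearly independent, `q ≥ n + 1`. For all but `O(B ^ (exponent n q θ + δ))`
points `x` of `ℙ^n(k)` of height at most `B` off the hyperplanes, ALL points `P` of ALL `X_m`, `m ≥ 1`,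
above `x` satisfy `(θ m - q) h(P) ≤ d_k(P) + c`. For `θ = q - n - 1 - ε` the inequality is
`h_K(P) ≤ d_k(P) + ε m h(P) + c`. The exponent is smaller than `n + 1` for `θ < q`, and at most `θ` for
the diagonal hypersurfaces (`q = n + 2`) of dimension `n ≥ 2`, where `θ = 1 - ε`. -/
theorem result (k : Type) [Field k] [NumberField k] (θ c δ : ℝ) (hθ : 0 ≤ θ) (hδ : 0 < δ)
    (n q : ℕ) (hn : 1 ≤ n) (hq : n + 1 ≤ q) (a : Fin q → Fin (n + 1) → k)
    (ha : ∀ I : Finset (Fin q), I.card = n + 1 → LinearIndependent k (fun i : I => a i)) :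
    (θ < q → exponent n q θ < n + 1) ∧ (q = n + 2 → 2 ≤ n → exponent n q θ ≤ θ) ∧
    ∃ M : ℝ, ∀ B : ℝ, 1 ≤ B → (exceptional a θ c B).Finite ∧
      ((exceptional a θ c B).ncard : ℝ) ≤ M * B ^ (exponent n q θ + δ) := by
  refine ⟨(Pool.Agent.Results.MP_9ec3f0_nt.HyperplaneExceptions.result k n q hn hq a ha
    ∅ θ c δ hθ hδ).1, ?_, ?_⟩
  · rintro rfl hn2
    refine (min_le_left _ _).trans ?_
    have h1 : (n + 2 - n).choose (n + 1) = 0 := by
      rw [Nat.add_sub_cancel_left]
      exact Nat.choose_eq_zero_of_lt (by omega)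
    rw [h1, Nat.cast_zero, zero_div, sub_zero, mul_one]
  · obtain ⟨M, hM⟩ := Pool.Agent.TH905.VF.gen_main k n q hn hq a ha ∅ θ c δ hθ hδ
    refine ⟨M, fun B hB => ?_⟩
    obtain ⟨h1, h2⟩ := hM B hB
    have hsub : exceptional a θ c B ⊆ Pool.Agent.TH905.VF.E1 ∅ a θ c B := by
      rintro x ⟨hl, hB', hv⟩
      exact ⟨hl, hB', hv.prox hl⟩
    refine ⟨h1.subset hsub, le_trans ?_ h2⟩
    exact_mod_cast Set.ncard_le_ncard hsub h1

end Pool.Agent.Results.MP_9b9442_nt.FermatIntersections
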