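import Pool.Agent.TH954.V.MainC

/-!
# Vojta's inequality for algebraic points of arbitrary degree on modifications of powers of an
elliptic curve

Let `E : y² = x³ + a x + b` be an elliptic curve over a number field `K` and `Y` a closed subscheme
of `E ^ k`. For `r` with `dim Y + r < k` and every `ε > 0`, the height attached to `Y` satisfies
`h_Y(P) ≤ ε h(P) + C` for all points `P = (P_1, ..., P_k)` of `E ^ k` over all number fields `L`
containing `K` such that `P_1, ..., P_k` generate a group of rank at most `r`, outside a proper
closed subset of `E ^ k`; the constant `C` and the closed subset do not depend on `L`. (If `E` has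
no complex multiplication, these are the points of the algebraic subgroups of `E ^ k` whose
dimension is at most `r`.)

For the blow-up `X` of `E ^ k` along a smooth `Y` of codimension `c` one has `K_X = (c - 1) Exc` and
`h_{K_X} = (c - 1) h_Y`, so that this is Vojta's inequality, without the discriminant term and
uniformly in the degree, for these points of `X`.
-/

set_option autoImplicit false

open NumberField MvPolynomial

namespace Pool.Agent.Results.MP_9b9442_nt.PointsOfSmallRank

/-- the curve `y² = x³ + a x + b` -/
def curve {F : Type} [Field F] (a b : F) : WeierstrassCurve F := ⟨0, 0, 0, a, b⟩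

/-- homogeneous coordinates of a point in the projective plane -/
def coords {F : Type} [Field F] {W : WeierstrassCurve F} : W.toAffine.Point → Fin 3 → F
  | .zero => ![0, 1, 0]
  | .some x y _ => ![x, y, 1]

/-- `f`, a polynomial in `k` groups of three variables, is a form of multidegree `d` -/
def IsForm {K : Type} [Field K] {k : ℕ} (d : Fin k → ℕ) (f : MvPolynomial (Fin k × Fin 3) K) :
    Prop :=
  ∀ m ∈ f.support, ∀ j, ∑ c, m (j, c) = d j

/-- the value of `f` at the coordinates of `k` points over an extension `F` of `K` -/
noncomputable def value {K F : Type} [Field K] [Field F] [Algebra K F] {W : WeierstrassCurve F}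
    {k : ℕ} (f : MvPolynomial (Fin k × Fin 3) K) (P : Fin k → W.toAffine.Point) : F :=
  aeval (fun p : Fin k × Fin 3 => coords (P p.1) p.2) f

/-- the local height of `P` with respect to the subscheme `Y : f = 0`, where `f i` has multidegree
`δ i`: minus the logarithm of `max_i |f i (P)|_v / ∏_j |P_j|_v ^ (δ i j)`, with
`|P_j|_v` the maximum of the absolute values of the coordinates of `P_j` -/
noncomputable def lambda {K L : Type} [Field K] [Field L] [Algebra K L] {W : WeierstrassCurve L}
    {k s : ℕ} (f : Fin s → MvPolynomial (Fin k × Fin 3) K) (δ : Fin s → Fin k → ℕ)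
    (v : AbsoluteValue L ℝ) (P : Fin k → W.toAffine.Point) : ℝ :=
  -Real.log (⨆ i, v (value (f i) P) / ∏ j, (⨆ c, v (coords (P j) c)) ^ δ i j)

/-- the absolute value of a finite place (normalised so that the product formula holds) -/
def abvFin {L : Type} [Field L] [NumberField L] (v : FinitePlace L) : AbsoluteValue L ℝ := v.val

/-- the absolute value of an infinite place -/
def abvInf {L : Type} [Field L] (w : InfinitePlace L) : AbsoluteValue L ℝ := w.val

/-- the height attached to `Y : f = 0`: the sum of the local heights over the places of `L`, divided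
by `[L : K]` -/
noncomputable def heightY {K L : Type} [Field K] [Field L] [NumberField L] [Algebra K L]
    {W : WeierstrassCurve L} {k s : ℕ} (f : Fin s → MvPolynomial (Fin k × Fin 3) K)
    (δ : Fin s → Fin k → ℕ) (P : Fin k → W.toAffine.Point) : ℝ :=
  (∑ w : InfinitePlace L, (w.mult : ℝ) * lambda f δ (abvInf w) P +
    ∑ᶠ v : FinitePlace L, lambda f δ (abvFin v) P) / Module.finrank K L

/-- the sum of the logarithmic heights of the points `P_j` of the plane, relative to `K` (the
heights relative to `L` divided by `[L : K]`) -/
noncomputable def height (K : Type) {L : Type} [Field K] [Field L] [NumberField L] [Algebra K L]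
    {W : WeierstrassCurve L} {k : ℕ} (P : Fin k → W.toAffine.Point) : ℝ :=
  (∑ j, Height.logHeight (coords (P j))) / Module.finrank K L

/-- `Y : f = 0` has dimension at most `y`: for each field extension `F` of `K`, every point of
`Y(F)` generates an extension of `K` of transcendence degree at most `y` -/
def DimLe {K : Type} [Field K] (a b : K) {k s : ℕ} (f : Fin s → MvPolynomial (Fin k × Fin 3) K)
    (y : ℕ) : Prop :=
  ∀ (F : Type) [Field F] [Algebra K F]
    (P : Fin k → (curve (algebraMap K F a) (algebraMap K F b)).toAffine.Point),
    (∀ i, value (f i) P = 0) →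
    Algebra.trdeg K (IntermediateField.adjoin K
      (Set.range (fun p : Fin k × Fin 3 => coords (P p.1) p.2))) ≤ (y : Cardinal)

/-- the subgroup generated by the elements `P j` of an abelian group has rank at most `r` -/
def RankLe {A : Type} [AddCommGroup A] {k : ℕ} (P : Fin k → A) (r : ℕ) : Prop :=
  Module.finrank ℤ (AddSubgroup.closure (Set.range P)) ≤ r

/-- the form `Φ` does not vanish identically on `E ^ k`: there are a number field `F` containing `K`
and a point of `E(F) ^ k` where its value is not zero -/
def NotIdenticallyZero {K : Type} [Field K] (a b : K) {k : ℕ}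
    (Φ : MvPolynomial (Fin k × Fin 3) K) : Prop :=
  ∃ (F : Type) (_ : Field F) (_ : NumberField F) (_ : Algebra K F)
    (P : Fin k → (curve (algebraMap K F a) (algebraMap K F b)).toAffine.Point), value Φ P ≠ 0

/-- `P` is not in `Y : f = 0`, almost all local heights of `P` with respect to `Y` are zero, and
`h_Y(P) ≤ ε ∑ h(P_j) + C` -/
def Bounded {K L : Type} [Field K] [Field L] [NumberField L] [Algebra K L]
    {W : WeierstrassCurve L} {k s : ℕ} (f : Fin s → MvPolynomial (Fin k × Fin 3) K)
    (δ : Fin s → Fin k → ℕ) (ε C : ℝ) (P : Fin k → W.toAffine.Point) : Prop :=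
  (∃ i, value (f i) P ≠ 0) ∧ {v : FinitePlace L | lambda f δ (abvFin v) P ≠ 0}.Finite ∧
    heightY f δ P ≤ ε * height K P + C

/-- **Vojta's inequality for points of small rank and arbitrary degree.** Let
`E : y² = x³ + a x + b` be an elliptic curve over the number field `K` and `Y` the closed subscheme
of `E ^ k` defined by forms `f i` of multidegree `δ i`, of dimension at most `y`. Let `r` be such that
`y + r < k`. Then, for every `ε > 0`, there are a form `Φ` over `K`, not vanishing identically
on `E ^ k`, and a constant `C` such that for all number fields `L` containing `K` (of any degree)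
and all `P` in `E(L) ^ k` whose coordinates generate a subgroup of `E(L)` of rank at most `r`, if
`Φ(P) ≠ 0`, then `P` is not in `Y`, almost all local heights of `P` are zero, and
`h_Y(P) ≤ ε ∑ h(P_j) + C`. -/
theorem result :
    ∀ (K : Type) [Field K] [NumberField K] (a b : K), 4 * a ^ 3 + 27 * b ^ 2 ≠ 0 →
      ∀ r k y : ℕ, y + r < k →
      ∀ (s : ℕ) (f : Fin s → MvPolynomial (Fin k × Fin 3) K) (δ : Fin s → Fin k → ℕ),
        (∀ i, IsForm (δ i) (f i)) → DimLe a b f y →
      ∀ ε : ℝ, 0 < ε →
      ∃ (Φ : MvPolynomial (Fin k × Fin 3) K) (τ : Fin k → ℕ) (C : ℝ), IsForm τ Φ ∧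
        NotIdenticallyZero a b Φ ∧
        ∀ (L : Type) [Field L] [NumberField L] [DecidableEq L] [Algebra K L]
          (P : Fin k → (curve (algebraMap K L a) (algebraMap K L b)).toAffine.Point),
          RankLe P r → value Φ P ≠ 0 → Bounded f δ ε C P := by
  intro K _ _ a b hD r k y hk s f δ hf hdim ε hε
  obtain ⟨Φ, τ, h1, h2, C, h3⟩ := Pool.Agent.TH954.V.main_cod K a b hD r k y hk f δ hf
    (fun F _ _ η hη => hdim F η hη) ε hε
  refine ⟨Φ, τ, C * Module.finrank ℚ K, h1, h2, fun L _ _ _ _ P hrk hP => ?_⟩
  obtain ⟨h4, h5, h6⟩ := h3 L P hrk hP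
  refine ⟨h4, h5, ?_⟩
  have h7 : Module.finrank ℚ K * Module.finrank K L = Module.finrank ℚ L :=
    Module.finrank_mul_finrank ℚ K L
  have h8 : 0 < Module.finrank K L := by
    have h6 : 0 < Module.finrank ℚ L := Module.finrank_pos
    rcases Nat.eq_zero_or_pos (Module.finrank K L) with h | h
    · rw [h, mul_zero] at h7
      omega
    · exact h
  have h9 : (0 : ℝ) < Module.finrank K L := by exact_mod_cast h8
  have h10 : (Module.finrank ℚ L : ℝ) = Module.finrank ℚ K * Module.finrank K L := by
    rw [← h7]
    push_cast
    rfl
  unfold heightY height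
  rw [div_le_iff₀ h9]
  have h11 : (ε * ((∑ j, Height.logHeight (coords (P j))) / Module.finrank K L) +
      C * Module.finrank ℚ K) * Module.finrank K L =
      ε * ∑ j, Height.logHeight (coords (P j)) + C * Module.finrank ℚ L := by
    rw [h10]
    field_simp
  rw [h11]
  exact h6

end Pool.Agent.Results.MP_9b9442_nt.PointsOfSmallRank
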