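import Mathlib
import Pool.Agent.TH905.VF.Prod

/-!
# Vojta's inequality for points of bounded degree on products of curves

Let `C_1, …, C_n` be smooth projective curves (over number fields) and `t_i : C_i → ℙ¹` finite maps
of degree `N_i` over `ℚ` which are unramified outside the fibres over rational points
`a_{i 1}, …, a_{i q_i} ≠ ∞`; by Belyi's theorem every curve has such a map with `q_i = 3`. Let `A_i`
be the ring of functions on `C_i` with poles only over `∞`: a Dedekind domain, finite over `ℚ[t]`.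
Let `y_{i j 0} = t - a_{i j}, y_{i j 1}, …` be generators of the radical of the ideal
`(t - a_{i j})`, the ideal of the reduced fibre over `a_{i j}`. By the formula of Riemann and Hurwitz
`(deg K_{C_i}) / N_i = q_i - 2 - (∑_j dim (A_i / (y_{i j 0}, y_{i j 1}, …))) / N_i`.

Let `X = C_1 × ⋯ × C_n`. The points `P` of `X` (not over `∞`) over a number field `L` are the
families of homomorphisms `φ_i : A_i → L`, `t_i(P) = φ_i(t)`, and
`h_K(P) = ∑_i ((deg K_{C_i}) / N_i) h(t_i(P))` up to `ε ∑_i h(t_i(P)) + O(1)`.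

Let `K` be a number field. We consider ALL points `P` of `X` above the `K`-rational points
`x = (x_1, …, x_n)`, `x_i ≠ a_{i j}`, of `(ℙ¹)^n`; their degree over `K` is at most `N_1 ⋯ N_n`. We prove
`∑_i ((deg K_{C_i}) / N_i + θ) h(x_i) ≤ d_K(P) + c` for all `x` outside a small set; for `θ = 0` this
is Vojta's inequality, even without the term `ε h_A(P)`, for `θ > 0` it is stronger. The logarithmic
discriminant is counted once, not `dim X` times as one gets from the curves.

Proof: the primes of `K` at which some `x_i` is near some `a_{i j}` contribute to the discriminant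
or have primes above them at which `P` is near the reduced fibre; the latter are few by the product
formula for functions on `C_i` which vanish to high order along the fibre (see
`AllCurvesProximity`, MP_71c16a_nt). For the `x` with a small truncated counting function see
`ProductFibres` (MP_9ec3f0_nt) of the starting files.
-/

set_option autoImplicit false

namespace Pool.Agent.Results.MP_9b9442_nt.ProductsOfCurves

open Polynomial NumberField

/-- The function `t`. -/
noncomputable def coord (A : Type) [CommRing A] [Algebra ℚ[X] A] : A := algebraMap ℚ[X] A X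

/-- The logarithmic height of `x ∈ K`, relative to `K`. -/
noncomputable def height {K : Type} [Field K] [NumberField K] (x : K) : ℝ := Height.logHeight₁ x

/-- The logarithmic discriminant `log |disc L| / [L : K] - log |disc K|`. -/
noncomputable def logDisc (K L : Type) [Field K] [NumberField K] [Field L] [NumberField L]
    [Algebra K L] : ℝ :=
  Real.log |(discr L : ℝ)| / Module.finrank K L - Real.log |(discr K : ℝ)|

/-- `q - 2 - (∑_j dim (A / (y_{j 0}, y_{j 1}, …))) / N`, where `N` is the rank of `A` over `ℚ[t]`. -/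
noncomputable def canonicalDegree {A : Type} [CommRing A] [Algebra ℚ A] [Algebra ℚ[X] A] {q : ℕ}
    {u : Fin q → ℕ} (y : ∀ j, Fin (u j + 1) → A) : ℝ :=
  q - 2 - (∑ j, (Module.finrank ℚ (A ⧸ Ideal.span (Set.range (y j))) : ℝ)) /
    Module.finrank ℚ[X] A

/-- The exceptional `x = (x_1, …, x_n) ∈ K ^ n`, `x_i ≠ a_{i j}`, with coordinates of height at most
`log B`: over some number field `L` which contains `K` there is a point `P = (φ_i)` of the product
of the curves above `x` with `d_K(L) + c < ∑_i (canonicalDegree_i + θ) h(x_i)`. -/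
def exceptional (K : Type) [Field K] [NumberField K] {n : ℕ} {q : Fin n → ℕ} {A : Fin n → Type}
    [∀ i, CommRing (A i)] [∀ i, Algebra ℚ (A i)] [∀ i, Algebra ℚ[X] (A i)]
    (a : ∀ i, Fin (q i) → ℚ) {u : ∀ i, Fin (q i) → ℕ} (y : ∀ i j, Fin (u i j + 1) → A i)
    (θ c B : ℝ) : Set (Fin n → K) :=
  {x | (∀ i j, x i ≠ (a i j : K)) ∧ (∀ i, height (x i) ≤ Real.log B) ∧
    ∃ (L : Type) (_ : Field L) (_ : NumberField L) (_ : Algebra K L) (φ : ∀ i, A i →+* L),
      (∀ i, φ i (coord (A i)) = algebraMap K L (x i)) ∧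
      logDisc K L + c < ∑ i, (canonicalDegree (y i) + θ) * height (x i)}

/-- The exponent. -/
noncomputable def exponent (n Q : ℕ) (θ : ℝ) : ℝ :=
  min (max (θ * n) (2 * n - 4 / 5))
    (min ((2 - 4 * (2 - θ) / (Q : ℝ) ^ 2) * n)
      (((Q : ℝ) - 2 + θ) * (1 - (1 - 2 / (Q : ℝ)) ^ n) * n))

/-- **Vojta's inequality for points of bounded degree on products of curves.** For `i = 1, …, n` let
`A_i` be a Dedekind domain, finite over `ℚ[t]` and containing it (the ring of functions of a smooth
affine curve which is finite over the `t`-line), `a_{i 1}, …, a_{i q_i}` distinct rational numbers,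
`1 ≤ q_i ≤ Q`, `Q ≥ 2`, and `y_{i j 0} = t - a_{i j}, y_{i j 1}, …` elements of the radical of the
ideal `(t - a_{i j})`, for example generators. Let `K` be a number field, `0 ≤ θ < 2`, `c` real and
`δ > 0`. For all but `M B ^ (exponent n Q θ + δ)` of the `x ∈ K ^ n`, `x_i ≠ a_{i j}`, with `H(x_i) ≤ B`,
ALL points `P` of the product of the curves above `x`, over any number field `L` containing `K`,
satisfy `∑_i (canonicalDegree_i + θ) h(x_i) ≤ d_K(L) + c`. The exponent is smaller than `2 n`; for
`Q = 3` and `θ = 0` it is at most `n (1 - 3 ^ (-n))`. -/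
theorem result (K : Type) [Field K] [NumberField K] (n : ℕ) (hn : 1 ≤ n) (Q : ℕ) (hQ : 2 ≤ Q)
    (q : Fin n → ℕ) (hq : ∀ i, 1 ≤ q i) (hqQ : ∀ i, q i ≤ Q) (A : Fin n → Type)
    [∀ i, CommRing (A i)] [∀ i, IsDedekindDomain (A i)] [∀ i, Algebra ℚ (A i)]
    [∀ i, Algebra ℚ[X] (A i)] [∀ i, IsScalarTower ℚ ℚ[X] (A i)] [∀ i, Module.Finite ℚ[X] (A i)]
    [∀ i, FaithfulSMul ℚ[X] (A i)]
    (a : ∀ i, Fin (q i) → ℚ) (ha : ∀ i, Function.Injective (a i))
    (u : ∀ i, Fin (q i) → ℕ) (y : ∀ i j, Fin (u i j + 1) → A i)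
    (hy0 : ∀ i j, y i j 0 = coord (A i) - algebraMap ℚ[X] (A i) (C (a i j)))
    (hyr : ∀ i j l, y i j l ∈
      (Ideal.span {coord (A i) - algebraMap ℚ[X] (A i) (C (a i j))}).radical)
    (θ c δ : ℝ) (hθ0 : 0 ≤ θ) (hθ2 : θ < 2) (hδ : 0 < δ) :
    exponent n Q θ < 2 * n ∧ exponent n 3 0 ≤ n * (1 - (1 / 3) ^ n) ∧
    ∃ M : ℝ, ∀ B : ℝ, 1 ≤ B → (exceptional K a y θ c B).Finite ∧
      ((exceptional K a y θ c B).ncard : ℝ) ≤ M * B ^ (exponent n Q θ + δ) := by
  have he : ∀ Q θ, exponent n Q θ =
      Pool.Agent.Results.MP_9ec3f0_nt.ProductFibres.exponent n Q (2 - θ) := by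
    intro Q θ
    unfold exponent Pool.Agent.Results.MP_9ec3f0_nt.ProductFibres.exponent
    rw [sub_sub_cancel, ← sub_add]
  refine ⟨?_, ?_, ?_⟩
  · rw [he]
    exact Pool.Agent.TH905.VF.exponent_lt n Q hn hQ (2 - θ) (by linarith)
  · refine ((min_le_right _ _).trans (min_le_right _ _)).trans (le_of_eq ?_)
    have e1 : (1 : ℝ) - 2 / ((3 : ℕ) : ℝ) = 1 / 3 := by norm_num
    rw [e1]
    push_cast
    ring
  · obtain ⟨M, hM⟩ := Pool.Agent.TH905.VF.main_prod K hn Q hQ hq hqQ A a ha u y hy0 hyr (2 - θ) c δ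
      (by linarith) (by linarith) hδ
    refine ⟨M, fun B hB => ?_⟩
    obtain ⟨h1, h2⟩ := hM B hB
    have hsub : exceptional K a y θ c B ⊆ Pool.Agent.TH905.VF.EC K a u y (2 - θ) c B := by
      rintro x ⟨hne, hB', L, i1, i2, i3, φ, hφ, hv⟩
      refine ⟨hne, hB', L, i1, i2, i3, φ, ∅, hφ, ?_⟩
      have e1 : ∑ i, ((q i : ℝ) - (∑ j, (Module.finrank ℚ
          (A i ⧸ Ideal.span (Set.range (y i j))) : ℝ)) / Module.finrank ℚ[X] (A i) - (2 - θ)) *
            Height.logHeight₁ (x i) = ∑ i, (canonicalDegree (y i) + θ) * height (x i) := by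
        refine Finset.sum_congr rfl fun i _ => ?_
        unfold canonicalDegree height
        ring
      rw [Finset.sum_empty, add_zero, e1]
      have h3 : 0 ≤ Pool.Agent.TH905.VF.proxC (K := K) ∅ y φ :=
        Pool.Agent.TH905.VF.proxC_nonneg ∅ y φ
      exact lt_of_lt_of_le hv (le_add_of_nonneg_right h3)
    refine ⟨h1.subset hsub, ?_⟩
    rw [he]
    exact le_trans (Nat.cast_le.2 (Set.ncard_le_ncard hsub h1)) h2

end Pool.Agent.Results.MP_9b9442_nt.ProductsOfCurves
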