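import Pool.Agent.TH910.Voj.Main

/-!
# Vojta's inequality over almost all rational points of projective space

Let `X → ℙⁿ` be a finite cover over `ℚ` of any dimension `n`, and let `A` be a homogeneous
coordinate ring of `X`, a finite algebra over `ℚ[x_0, …, x_n]`. Suppose that the cover is ramified
over `q` different irreducible hypersurfaces `F_j = 0` of degree `k_j`, with all ramification
indices over `F_j = 0` at least `ν_j`; nothing is assumed on the remaining branch divisor of the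
cover. Each `F_j` is a hyperplane, a quadric, or a form of higher degree which takes few values
twice.

Then, for each `κ < ∑ k_j (1 - 1 / ν_j)`, all closed points `P` of `X` (of any degree) over all
points `x` of `ℙⁿ(ℚ)` of height at most `B`, with the exception of a power-saving number of `x`,
have `log |disc ℚ(P)| / [ℚ(P) : ℚ] ≥ κ log B`.

If the cover is Galois, with index `ν_j` over `F_j = 0` and indices `e_i` over further branch
components `G_i = 0`, then `h_{K_X}(P) = (∑ k_j (1 - 1 / ν_j) + ∑ deg G_i (1 - 1 / e_i) - n - 1) h(x)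
+ O(1)`; hence Vojta's inequality `h_{K_X}(P) ≤ d(P) + O(1)` holds, for all points over almost all
`x`, as soon as `∑ deg G_i (1 - 1 / e_i) < n + 1`.
-/

set_option autoImplicit false

namespace Pool.Agent.Results.MP_9b9442_nt.RamifiedCovers

open MvPolynomial

/-- All ramification indices of `A` over the prime divisor `F = 0` of `ℚ[x_0, …, x_n]` are at least
`ν`: for each prime `𝔓` of `A` over `(F)`, the image of `F` in the local ring `A_𝔓` lies in the
`ν`-th power of the maximal ideal. (If `A` is normal, `A_𝔓` is a discrete valuation ring.) -/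
def RamifiedAlong {n : ℕ} (A : Type) [CommRing A] [Algebra (MvPolynomial (Fin (n + 1)) ℚ) A]
    (F : MvPolynomial (Fin (n + 1)) ℚ) (ν : ℕ) : Prop :=
  ∀ (𝔓 : Ideal A) [𝔓.IsPrime],
    𝔓.comap (algebraMap (MvPolynomial (Fin (n + 1)) ℚ) A) = Ideal.span {F} →
      algebraMap A (Localization.AtPrime 𝔓)
        (algebraMap (MvPolynomial (Fin (n + 1)) ℚ) A F) ∈
          (IsLocalRing.maximalIdeal (Localization.AtPrime 𝔓)) ^ ν

/-- A form `F` of degree `k` in `n` variables has few coincidences if, for each `δ > 0`, it takes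
the same value at no more than `C B ^ (2 n - k + δ)` pairs of integer vectors with entries at most
`B` in absolute value. -/
def FewCoincidences {n : ℕ} (F : MvPolynomial (Fin n) ℤ) (k : ℕ) : Prop :=
  ∀ δ : ℝ, 0 < δ → ∃ C : ℝ, ∀ B : ℕ, 1 ≤ B →
    (Set.ncard {z : (Fin n → ℤ) × (Fin n → ℤ) | (∀ i, |z.1 i| ≤ B) ∧ (∀ i, |z.2 i| ≤ B) ∧
      eval z.1 F = eval z.2 F} : ℝ) ≤ C * (B : ℝ) ^ (2 * (n : ℝ) - k + δ)

/-- The logarithmic discriminant of a number field (over `ℚ`). -/
noncomputable def logDisc (K : Type) [Field K] [NumberField K] : ℝ :=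
  Real.log |(NumberField.discr K : ℝ)| / Module.finrank ℚ K

lemma exists_of_ramifiedAlong {n : ℕ} {A : Type} [CommRing A]
    [Algebra (MvPolynomial (Fin (n + 1)) ℚ) A] {F : MvPolynomial (Fin (n + 1)) ℚ} {ν : ℕ}
    (h : RamifiedAlong A F ν) (𝔓 : Ideal A) (hp : 𝔓.IsPrime)
    (hcomap : 𝔓.comap (algebraMap (MvPolynomial (Fin (n + 1)) ℚ) A) = Ideal.span {F}) :
    ∃ s, s ∉ 𝔓 ∧ s * algebraMap _ A F ∈ 𝔓 ^ ν := by
  have h1 := h 𝔓 hcomap
  rw [← Localization.AtPrime.map_eq_maximalIdeal, ← Ideal.map_pow,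
    IsLocalization.mem_map_algebraMap_iff 𝔓.primeCompl] at h1
  obtain ⟨⟨⟨a, ha⟩, ⟨s, hs⟩⟩, h2⟩ := h1
  simp only at h2
  rw [← map_mul, IsLocalization.eq_iff_exists 𝔓.primeCompl] at h2
  obtain ⟨⟨t, ht⟩, h3⟩ := h2
  simp only at h3
  refine ⟨t * s, fun h4 => ?_, ?_⟩
  · exact (hp.mem_or_mem h4).elim ht hs
  · have h5 : t * s * algebraMap (MvPolynomial (Fin (n + 1)) ℚ) A F = t * a := by
      rw [← h3]; ring
    rw [h5]
    exact Ideal.mul_mem_left _ _ ha

/-- **Points of finite covers of projective space over almost all rational points have a large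
discriminant.** -/
theorem result (n : ℕ) (A : Type) [CommRing A] [Algebra (MvPolynomial (Fin (n + 1)) ℚ) A]
    [Module.Finite (MvPolynomial (Fin (n + 1)) ℚ) A] (q : ℕ)
    (F : Fin q → MvPolynomial (Fin (n + 1)) ℤ) (k ν : Fin q → ℕ)
    (hhom : ∀ j, (F j).IsHomogeneous (k j))
    (hirr : ∀ j, Irreducible (map (Int.castRingHom ℚ) (F j)))
    (hdist : ∀ i j, i ≠ j →
      ¬ Associated (map (Int.castRingHom ℚ) (F i)) (map (Int.castRingHom ℚ) (F j)))
    (hfew : ∀ j, k j ≤ 2 ∨ FewCoincidences (F j) (k j)) (hν : ∀ j, 1 ≤ ν j)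
    (hram : ∀ j, RamifiedAlong A (map (Int.castRingHom ℚ) (F j)) (ν j))
    (κ : ℝ) (hκ : κ < ∑ j, (k j : ℝ) * (1 - 1 / ν j)) :
    ∃ c : ℝ, 0 < c ∧ ∃ C : ℝ, ∀ B : ℕ, 1 ≤ B →
      (Set.ncard {x : Fin (n + 1) → ℤ | (∀ i, |x i| ≤ B) ∧
        ∃ (K : Type) (_ : Field K) (_ : NumberField K) (φ : A →+* K),
          (∀ i, φ (algebraMap (MvPolynomial (Fin (n + 1)) ℚ) A (X i)) = x i) ∧
          logDisc K < κ * Real.log B} : ℝ) ≤ C * (B : ℝ) ^ ((n : ℝ) + 1 - c) := by
  obtain ⟨c, hc, C, -, h⟩ := TH910.Voj.main (A := A) F k ν hhom hirr hdist hfew hν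
    (fun j 𝔓 hp hcomap => exists_of_ramifiedAlong (hram j) 𝔓 hp hcomap) κ hκ
  refine ⟨c, hc, C, fun B hB => ?_⟩
  have h1 := h B hB
  push_cast at h1
  refine le_trans (le_of_eq ?_) h1
  congr 2
  ext x
  simp only [Set.mem_ofPred_eq, TH910.Voj.mem_box, logDisc]

end Pool.Agent.Results.MP_9b9442_nt.RamifiedCovers
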